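import Pool.Agent.L7h81.TW.Stm

/-!
# Project TW: part LOC
-/

set_option autoImplicit false
set_option linter.unusedSectionVars false

namespace Pool.Agent.L7h15.TW

open NumberField IsDedekindDomain
open Pool.Agent.K4H55.CX (facF luc luc_eq exists_ab cpow_two)
open Pool.Agent.W189.NF (aV eV)
open Pool.Agent.H921R2.TatePole (nm two_le_nm)
open Pool.Agent.L7h15.BK (cv npt pol loc_good npt_above luc_cast)

lemma luc_double (t q : ℂ) (f : ℕ) : luc t q (2 * f) = luc t q f ^ 2 - 2 * q ^ f := by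
  obtain ⟨α, β, rfl, rfl⟩ := exists_ab t q
  rw [luc_eq, luc_eq, mul_pow, mul_comm 2 f, pow_mul, pow_mul]
  ring

/-- the value of `facF` at a power of the norm of `v` -/
lemma facF_pow {K : Type} [Field K] [NumberField K] {n : 𝓞 K} (c : Ideal (𝓞 K) → ℂ) {v : HeightOneSpectrum (𝓞 K)}
    (hn : n ∉ v.asIdeal) (hq : 1 < Ideal.absNorm v.asIdeal) (f : ℕ) (s : ℂ) :
    facF n c v (Ideal.absNorm v.asIdeal ^ f) s =
      (1 - luc (c v.asIdeal) (Ideal.absNorm v.asIdeal) f * ((Ideal.absNorm v.asIdeal ^ f : ℕ) : ℂ) ^ (-s) +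
        ((Ideal.absNorm v.asIdeal ^ f : ℕ) : ℂ) * (((Ideal.absNorm v.asIdeal ^ f : ℕ) : ℂ) ^ (-s)) ^ 2)⁻¹ := by
  unfold facF
  rw [if_neg hn, Nat.log_pow hq, cpow_two _ (pow_ne_zero _ (by omega))]

open Classical in
/-- **LOC** -/
theorem s_LOC : L7h81.TW.S_LOC := by
  intro hT hS K F M _ _ _ _ _ _ _ _ _ _ _ _ n a b c hloc h2 d t ht hn v u hu hv hd hf s
  obtain ⟨f, hf⟩ := hf
  have hqn : nm v = Ideal.absNorm v.asIdeal := rfl
  have hq1 : 1 < Ideal.absNorm v.asIdeal := by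
    have := two_le_nm v
    omega
  obtain ⟨g1, g2⟩ := loc_good hv
  obtain ⟨l1, l2⟩ := hloc v
  have hnv : n ∉ v.asIdeal := by
    intro h3
    rw [if_pos h3, g2] at l2
    have h4 : (nm v : ℂ) = 0 := by exact_mod_cast l2
    have h5 : nm v = 0 := by exact_mod_cast h4
    omega
  set q := Ideal.absNorm v.asIdeal with hq
  set Q := Ideal.absNorm u.asIdeal with hQ
  have hQ0 : Q ≠ 0 := by
    rw [hf]
    exact pow_ne_zero _ (by omega)
  -- the trace at `u`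
  set A : ℂ := luc (c v.asIdeal) q f with hA
  have hAu : ((Q : ℤ) - npt (Ideal.Quotient.mk u.asIdeal (algebraMap (𝓞 K) (𝓞 F) a))
      (Ideal.Quotient.mk u.asIdeal (algebraMap (𝓞 K) (𝓞 F) b)) : ℂ) = A := by
    have h3 := npt_above hu hv hf
    have h5 : c v.asIdeal = (((q : ℤ) -
        npt (Ideal.Quotient.mk v.asIdeal a) (Ideal.Quotient.mk v.asIdeal b) : ℤ) : ℂ) := by
      rw [l1, g1, hqn]
    rw [hA, h5]
    have h6 : ((q : ℕ) : ℂ) = (((q : ℕ) : ℤ) : ℂ) := by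
      push_cast
      rfl
    rw [h6, luc_cast, ← h3]
    push_cast
    rfl
  -- the curve `E_d` at `u`
  have hd2 : (2 : 𝓞 F) ∉ u.asIdeal := fun h => hd (u.asIdeal.mul_mem_right _ h)
  have hdd : d ∉ u.asIdeal := fun h => hd (u.asIdeal.mul_mem_left _ h)
  have hDu : 4 * (algebraMap (𝓞 K) (𝓞 F) a) ^ 3 + 27 * (algebraMap (𝓞 K) (𝓞 F) b) ^ 2 ∉ u.asIdeal := by
    intro h
    apply hv
    apply v.asIdeal.mul_mem_left
    rw [← hu, Ideal.mem_comap]
    simpa only [map_mul, map_add, map_pow, map_ofNat] using h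
  have hgood : 2 * (4 * (algebraMap (𝓞 K) (𝓞 F) a * d ^ 2) ^ 3 + 27 * (algebraMap (𝓞 K) (𝓞 F) b * d ^ 3) ^ 2) ∉
      u.asIdeal := by
    intro h
    have e : 2 * (4 * (algebraMap (𝓞 K) (𝓞 F) a * d ^ 2) ^ 3 + 27 * (algebraMap (𝓞 K) (𝓞 F) b * d ^ 3) ^ 2) =
        2 * (d ^ 6 * (4 * (algebraMap (𝓞 K) (𝓞 F) a) ^ 3 + 27 * (algebraMap (𝓞 K) (𝓞 F) b) ^ 2)) := by ring
    rw [e] at h
    rcases u.isPrime.mem_or_mem h with h | h
    · exact hd2 h
    · rcases u.isPrime.mem_or_mem h with h | h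
      · exact hdd (u.isPrime.mem_of_pow_mem _ h)
      · exact hDu h
  obtain ⟨k1, k2⟩ := loc_good hgood
  have e1 : cv (((algebraMap (𝓞 K) (𝓞 F) a * d ^ 2 : 𝓞 F)) : F) ((algebraMap (𝓞 K) (𝓞 F) b * d ^ 3 : 𝓞 F) : F) =
      cv (algebraMap K F (a : K) * (d : F) ^ 2) (algebraMap K F (b : K) * (d : F) ^ 3) := by
    simp only [RingOfIntegers.coe_eq_algebraMap, map_mul, map_pow]
    rfl
  rw [e1] at k1 k2
  have hnmu : nm u = Q := rfl
  have hpol : pol (cv (algebraMap K F (a : K) * (d : F) ^ 2) (algebraMap K F (b : K) * (d : F) ^ 3)) u s =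
      1 - ((Q : ℤ) - npt (Ideal.Quotient.mk u.asIdeal (algebraMap (𝓞 K) (𝓞 F) a * d ^ 2))
        (Ideal.Quotient.mk u.asIdeal (algebraMap (𝓞 K) (𝓞 F) b * d ^ 3)) : ℂ) * (Q : ℂ) ^ (-s) +
        (Q : ℂ) * ((Q : ℂ) ^ (-s)) ^ 2 := by
    unfold pol
    rw [k1, k2, hnmu]
    push_cast
    rfl
  -- the finite field
  have := u.isMaximal
  let _ : Field (𝓞 F ⧸ u.asIdeal) := Ideal.Quotient.field _
  have : Finite (𝓞 F ⧸ u.asIdeal) := Ideal.finiteQuotientOfFreeOfNeBot u.asIdeal u.ne_bot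
  have hcu : Nat.card (𝓞 F ⧸ u.asIdeal) = Q := by
    rw [hQ, Ideal.absNorm_apply, Submodule.cardQuot_apply]
  have c2 : (2 : 𝓞 F ⧸ u.asIdeal) ≠ 0 := by
    intro h
    apply hd2
    rw [← Ideal.Quotient.eq_zero_iff_mem, map_ofNat]
    exact h
  have cd : Ideal.Quotient.mk u.asIdeal d ≠ 0 := by
    intro h
    exact hdd (Ideal.Quotient.eq_zero_iff_mem.1 h)
  obtain ⟨t1, t2⟩ := hT (𝓞 F ⧸ u.asIdeal) c2 (Ideal.Quotient.mk u.asIdeal (algebraMap (𝓞 K) (𝓞 F) a))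
    (Ideal.Quotient.mk u.asIdeal (algebraMap (𝓞 K) (𝓞 F) b)) (Ideal.Quotient.mk u.asIdeal d) cd
  obtain ⟨s1, s2⟩ := hS F M h2 d t ht hn u hd
  set X : ℂ := (Q : ℂ) ^ (-s) with hX
  by_cases hsq : IsSquare (Ideal.Quotient.mk u.asIdeal d)
  · obtain ⟨s3, s4⟩ := s1 hsq
    have h3 := t1 hsq
    have h4 : pol (cv (algebraMap K F (a : K) * (d : F) ^ 2) (algebraMap K F (b : K) * (d : F) ^ 3)) u s =
        1 - A * X + (Q : ℂ) * X ^ 2 := by
      rw [hpol, ← hAu, map_mul, map_mul, map_pow, map_pow, h3]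
    have h5 : facF n c v Q s = (1 - A * X + (Q : ℂ) * X ^ 2)⁻¹ := by
      rw [hX, hf, facF_pow c hnv hq1 f s]
    have h6 : ∀ w : {w : HeightOneSpectrum (𝓞 M) // w.asIdeal.comap (algebraMap (𝓞 F) (𝓞 M)) = u.asIdeal},
        facF n c v (Ideal.absNorm w.1.asIdeal) s = facF n c v Q s := fun w => by rw [s4 w.1 w.2]
    have hfin : Finite {w : HeightOneSpectrum (𝓞 M) // w.asIdeal.comap (algebraMap (𝓞 F) (𝓞 M)) = u.asIdeal} :=
      Nat.finite_of_card_ne_zero (by rw [s3]; norm_num)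
    have : Fintype {w : HeightOneSpectrum (𝓞 M) // w.asIdeal.comap (algebraMap (𝓞 F) (𝓞 M)) = u.asIdeal} :=
      Fintype.ofFinite _
    rw [finprod_congr h6, finprod_eq_prod_of_fintype, Finset.prod_const, Finset.card_univ,
      ← Nat.card_eq_fintype_card, s3, h4, h5, pow_two]
  · obtain ⟨s3, s4⟩ := s2 hsq
    have h3 := t2 hsq
    rw [hcu] at h3
    have h4 : pol (cv (algebraMap K F (a : K) * (d : F) ^ 2) (algebraMap K F (b : K) * (d : F) ^ 3)) u s =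
        1 + A * X + (Q : ℂ) * X ^ 2 := by
      have h7 : ((Q : ℤ) - npt (Ideal.Quotient.mk u.asIdeal (algebraMap (𝓞 K) (𝓞 F) a * d ^ 2))
        (Ideal.Quotient.mk u.asIdeal (algebraMap (𝓞 K) (𝓞 F) b * d ^ 3)) : ℂ) = -A := by
        rw [← hAu, map_mul, map_mul, map_pow, map_pow]
        have h8 := congrArg (fun m : ℕ => (m : ℂ)) h3
        push_cast at h8 ⊢
        linear_combination -h8
      rw [hpol, h7]
      ring
    have h5 : facF n c v Q s = (1 - A * X + (Q : ℂ) * X ^ 2)⁻¹ := by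
      rw [hX, hf, facF_pow c hnv hq1 f s]
    have h6 : ∀ w : {w : HeightOneSpectrum (𝓞 M) // w.asIdeal.comap (algebraMap (𝓞 F) (𝓞 M)) = u.asIdeal},
        facF n c v (Ideal.absNorm w.1.asIdeal) s = facF n c v (q ^ (2 * f)) s := fun w => by
      rw [s4 w.1 w.2, ← hQ, hf, mul_comm 2 f, pow_mul]
    have hfin : Finite {w : HeightOneSpectrum (𝓞 M) // w.asIdeal.comap (algebraMap (𝓞 F) (𝓞 M)) = u.asIdeal} :=
      Nat.finite_of_card_ne_zero (by rw [s3]; norm_num)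
    have : Fintype {w : HeightOneSpectrum (𝓞 M) // w.asIdeal.comap (algebraMap (𝓞 F) (𝓞 M)) = u.asIdeal} :=
      Fintype.ofFinite _
    have h9 : ((q ^ (2 * f) : ℕ) : ℂ) ^ (-s) = X ^ 2 := by
      rw [mul_comm 2 f, pow_mul, ← hf, hX, pow_two, Nat.cast_mul, Complex.natCast_mul_natCast_cpow, pow_two]
    have h10 : ((q ^ (2 * f) : ℕ) : ℂ) = (Q : ℂ) ^ 2 := by
      rw [mul_comm 2 f, pow_mul, ← hf]
      push_cast
      rfl
    rw [finprod_congr h6, finprod_eq_prod_of_fintype, Finset.prod_const, Finset.card_univ,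
      ← Nat.card_eq_fintype_card, s3, pow_one, facF_pow c hnv hq1, h4, h5, luc_double, h9, h10, ← mul_inv]
    congr 1
    have h11 : (q : ℂ) ^ f = (Q : ℂ) := by
      rw [hf]
      push_cast
      rfl
    rw [h11]
    ring

end Pool.Agent.L7h15.TW
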