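import Pool.Agent.L7h81.TW.Stm

/-!
# Project TW: part SPLIT
-/

set_option autoImplicit false
set_option linter.unusedSectionVars false

namespace Pool.Agent.L7h15.TW

open NumberField IsDedekindDomain
open Pool.Agent.L7h15.BK (norm_above card_above exists_frob frob_pow)

section

variable {F M : Type} [Field F] [NumberField F] [Field M] [NumberField M] [Algebra F M] [IsGalois F M]

/-- the group of a quadratic extension -/
lemma quad_grp (h2 : Module.finrank F M = 2) {d : 𝓞 F} {s : 𝓞 M} (hs : s ^ 2 = algebraMap (𝓞 F) (𝓞 M) d)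
    (hn : ∀ y : F, algebraMap F M y ≠ (s : M)) :
    Nat.card (M ≃ₐ[F] M) = 2 ∧ ∀ t : M ≃ₐ[F] M, t = 1 ∨ (t ≠ 1 ∧ t • s = -s) := by
  have hcard : Nat.card (M ≃ₐ[F] M) = 2 := by rw [IsGalois.card_aut_eq_finrank, h2]
  refine ⟨hcard, ?_⟩
  -- an automorphism that moves `s`
  have hpm : ∀ t : M ≃ₐ[F] M, t • s = s ∨ t • s = -s := by
    intro t
    have h3 : (t • s) ^ 2 = s ^ 2 := by
      rw [← smul_pow', hs]
      apply RingOfIntegers.coe_injective
      exact t.commutes (d : F)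
    exact sq_eq_sq_iff_eq_or_eq_neg.1 h3
  obtain ⟨c, hc⟩ : ∃ c : M ≃ₐ[F] M, c • s ≠ s := by
    by_contra hcon
    push Not at hcon
    have h3 : (s : M) ∈ Set.range (algebraMap F M) := by
      rw [IsGalois.mem_range_algebraMap_iff_fixed]
      intro g
      have h4 := congrArg (fun x : 𝓞 M => (x : M)) (hcon g)
      exact h4
    obtain ⟨y, hy⟩ := h3
    exact hn y hy
  have hc1 : c ≠ 1 := by
    rintro rfl
    exact hc (one_smul _ _)
  intro t
  by_cases ht : t = 1
  · exact Or.inl ht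
  · right
    refine ⟨ht, ?_⟩
    have h3 : t = c := by
      obtain ⟨a, b, hab, huniv⟩ := Nat.card_eq_two_iff.1 hcard
      have e1 : (1 : M ≃ₐ[F] M) ∈ ({a, b} : Set (M ≃ₐ[F] M)) := by rw [huniv]; trivial
      have e2 : t ∈ ({a, b} : Set (M ≃ₐ[F] M)) := by rw [huniv]; trivial
      have e3 : c ∈ ({a, b} : Set (M ≃ₐ[F] M)) := by rw [huniv]; trivial
      simp only [Set.mem_insert_iff, Set.mem_singleton_iff] at e1 e2 e3
      rcases e1 with e1 | e1 <;> rcases e2 with e2 | e2 <;> rcases e3 with e3 | e3 <;>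
        first
        | exact e2.trans e3.symm
        | exact absurd (e2.trans e1.symm) ht
        | exact absurd (e3.trans e1.symm) hc1
    rw [h3]
    exact (hpm c).resolve_left hc

/-- `2 s` is not in a place above a place that does not contain `2 d` -/
lemma two_s {d : 𝓞 F} {s : 𝓞 M} (hs : s ^ 2 = algebraMap (𝓞 F) (𝓞 M) d) {u : HeightOneSpectrum (𝓞 F)}
    (hu : 2 * d ∉ u.asIdeal) {w : HeightOneSpectrum (𝓞 M)}
    (hw : w.asIdeal.comap (algebraMap (𝓞 F) (𝓞 M)) = u.asIdeal) : -s - s ∉ w.asIdeal := by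
  intro h1
  have h2 : (-s - s) ^ 2 ∈ w.asIdeal := Ideal.pow_mem_of_mem _ h1 2 (by norm_num)
  have h3 : (-s - s) ^ 2 = algebraMap (𝓞 F) (𝓞 M) (2 * (2 * d)) := by
    rw [map_mul, map_mul, ← hs, map_ofNat]
    ring
  rw [h3] at h2
  have h4 : 2 * (2 * d) ∈ u.asIdeal := by
    rw [← hw]
    exact h2
  rcases u.isPrime.mem_or_mem h4 with h5 | h5
  · exact hu (Ideal.mul_mem_right _ _ h5)
  · exact hu h5

lemma inertia_one (h2 : Module.finrank F M = 2) {d : 𝓞 F} {s : 𝓞 M} (hs : s ^ 2 = algebraMap (𝓞 F) (𝓞 M) d)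
    (hn : ∀ y : F, algebraMap F M y ≠ (s : M)) {u : HeightOneSpectrum (𝓞 F)}
    (hu : 2 * d ∉ u.asIdeal) {w : HeightOneSpectrum (𝓞 M)}
    (hw : w.asIdeal.comap (algebraMap (𝓞 F) (𝓞 M)) = u.asIdeal) {t : M ≃ₐ[F] M}
    (ht : t ∈ w.asIdeal.inertia (M ≃ₐ[F] M)) : t = 1 := by
  rcases (quad_grp h2 hs hn).2 t with h3 | ⟨-, h3⟩
  · exact h3
  · exfalso
    have h4 : t • s - s ∈ w.asIdeal := ht s
    rw [h3] at h4
    exact two_s hs hu hw h4

/-- **SPLIT** -/
theorem s_SPLIT : L7h81.TW.S_SPLIT := by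
  intro F M _ _ _ _ _ _ h2 d s hs hn u hu
  obtain ⟨hcard, hgrp⟩ := quad_grp h2 hs hn
  have hdeg : ∀ w : HeightOneSpectrum (𝓞 M), w.asIdeal.comap (algebraMap (𝓞 F) (𝓞 M)) = u.asIdeal →
      Nat.card {w : HeightOneSpectrum (𝓞 M) // w.asIdeal.comap (algebraMap (𝓞 F) (𝓞 M)) = u.asIdeal} *
        w.asIdeal.inertiaDeg (𝓞 F) = 2 := by
    intro w hw
    have h3 := card_above hw
    have h4 : Nat.card (w.asIdeal.inertia (M ≃ₐ[F] M)) = 1 := by
      rw [Nat.card_eq_one_iff_unique]
      refine ⟨⟨fun x y => Subtype.ext ?_⟩, ⟨1⟩⟩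
      rw [inertia_one h2 hs hn hu hw x.2, inertia_one h2 hs hn hu hw y.2]
    rw [h4, mul_one, hcard] at h3
    exact h3
  obtain ⟨w0, hw0⟩ := L7h15.BK.exists_above (K := F) (F := M) u
  constructor
  · rintro ⟨y', hy'⟩
    obtain ⟨y, rfl⟩ := Ideal.Quotient.mk_surjective y'
    have hdy : d - y * y ∈ u.asIdeal := by
      rw [← Ideal.Quotient.eq, hy', map_mul]
    have hone : ∀ w : HeightOneSpectrum (𝓞 M), w.asIdeal.comap (algebraMap (𝓞 F) (𝓞 M)) = u.asIdeal →
        w.asIdeal.inertiaDeg (𝓞 F) = 1 := by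
      intro w hw
      obtain ⟨τ, hτ⟩ := exists_frob (K := F) (F := M) hw
      have hτ1 : τ = 1 := by
        rcases hgrp τ with h3 | ⟨-, h3⟩
        · exact h3
        · exfalso
          have h4 := hτ s
          rw [h3] at h4
          -- `s ≡ z` modulo `w` with `z ∈ 𝓞 F`
          have h5 : (s - algebraMap (𝓞 F) (𝓞 M) y) * (s - algebraMap (𝓞 F) (𝓞 M) (-y)) ∈ w.asIdeal := by
            have h6 : algebraMap (𝓞 F) (𝓞 M) (d - y * y) ∈ w.asIdeal := by
              rw [← Ideal.mem_comap, hw]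
              exact hdy
            have h7 : (s - algebraMap (𝓞 F) (𝓞 M) y) * (s - algebraMap (𝓞 F) (𝓞 M) (-y)) =
                algebraMap (𝓞 F) (𝓞 M) (d - y * y) := by
              rw [map_sub, ← hs, map_neg, map_mul]
              ring
            rw [h7]
            exact h6
          obtain ⟨z, hz⟩ : ∃ z : 𝓞 F, s - algebraMap (𝓞 F) (𝓞 M) z ∈ w.asIdeal := by
            rcases w.isPrime.mem_or_mem h5 with h6 | h6
            · exact ⟨y, h6⟩
            · exact ⟨-y, h6⟩
          have h8 : z ^ Ideal.absNorm u.asIdeal - z ∈ u.asIdeal := by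
            rw [← Ideal.Quotient.eq, map_pow]
            have := u.isMaximal
            let _ : Field (𝓞 F ⧸ u.asIdeal) := Ideal.Quotient.field _
            have : Finite (𝓞 F ⧸ u.asIdeal) := Ideal.finiteQuotientOfFreeOfNeBot u.asIdeal u.ne_bot
            have : Fintype (𝓞 F ⧸ u.asIdeal) := Fintype.ofFinite _
            have hc : Fintype.card (𝓞 F ⧸ u.asIdeal) = Ideal.absNorm u.asIdeal := by
              rw [← Nat.card_eq_fintype_card, Ideal.absNorm_apply, Submodule.cardQuot_apply]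
            rw [← hc]
            exact FiniteField.pow_card _
          have h9 : algebraMap (𝓞 F) (𝓞 M) z ^ Ideal.absNorm u.asIdeal - algebraMap (𝓞 F) (𝓞 M) z ∈ w.asIdeal := by
            rw [← map_pow, ← map_sub, ← Ideal.mem_comap, hw]
            exact h8
          have h10 : s ^ Ideal.absNorm u.asIdeal - s ∈ w.asIdeal := by
            rw [← Ideal.Quotient.eq] at hz h9 ⊢
            rw [map_pow, hz, ← map_pow, h9]
          exact two_s hs hu hw (by
            have := w.asIdeal.add_mem h4 h10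
            rwa [show -s - s ^ Ideal.absNorm u.asIdeal + (s ^ Ideal.absNorm u.asIdeal - s) = -s - s by ring] at this)
      have h3 := (frob_pow hw hτ 1).1 (by rw [hτ1, pow_one]; exact Subgroup.one_mem _)
      exact Nat.dvd_one.1 h3
    refine ⟨?_, fun w hw => ?_⟩
    · have h3 := hdeg w0 hw0
      rw [hone w0 hw0, mul_one] at h3
      exact h3
    · rw [(norm_above hw).1, hone w hw, pow_one]
  · intro hsq
    have htwo : ∀ w : HeightOneSpectrum (𝓞 M), w.asIdeal.comap (algebraMap (𝓞 F) (𝓞 M)) = u.asIdeal →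
        w.asIdeal.inertiaDeg (𝓞 F) = 2 := by
      intro w hw
      have h3 := hdeg w hw
      have h4 : w.asIdeal.inertiaDeg (𝓞 F) ∣ 2 := ⟨_, by rw [mul_comm]; exact h3.symm⟩
      rcases (Nat.dvd_prime Nat.prime_two).1 h4 with h5 | h5
      swap
      · exact h5
      exfalso
      apply hsq
      -- the residue fields are equal
      let φ : (𝓞 F ⧸ u.asIdeal) →+* (𝓞 M ⧸ w.asIdeal) :=
        Ideal.quotientMap w.asIdeal (algebraMap (𝓞 F) (𝓞 M)) (le_of_eq hw.symm)
      have hφi : Function.Injective φ := Ideal.quotientMap_injective' (le_of_eq hw)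
      have f1 : Finite (𝓞 F ⧸ u.asIdeal) := Ideal.finiteQuotientOfFreeOfNeBot u.asIdeal u.ne_bot
      have f2 : Finite (𝓞 M ⧸ w.asIdeal) := Ideal.finiteQuotientOfFreeOfNeBot w.asIdeal w.ne_bot
      have hc : Nat.card (𝓞 F ⧸ u.asIdeal) = Nat.card (𝓞 M ⧸ w.asIdeal) := by
        have h6 := (norm_above hw).1
        rw [h5, pow_one, Ideal.absNorm_apply, Ideal.absNorm_apply, Submodule.cardQuot_apply,
          Submodule.cardQuot_apply] at h6
        exact h6.symm
      have hφs : Function.Surjective φ := ((Nat.bijective_iff_injective_and_card φ).2 ⟨hφi, hc⟩).2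
      obtain ⟨y', hy'⟩ := hφs (Ideal.Quotient.mk w.asIdeal s)
      refine ⟨y', hφi ?_⟩
      rw [map_mul, hy', ← map_mul, ← pow_two, hs]
      rfl
    refine ⟨?_, fun w hw => ?_⟩
    · have h3 := hdeg w0 hw0
      rw [htwo w0 hw0] at h3
      omega
    · rw [(norm_above hw).1, htwo w hw]

end

end Pool.Agent.L7h15.TW
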